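import Pool.Agent.Q267.E8.Stm

set_option autoImplicit false

/-! Project E8 of helper267, job CH. -/

namespace Pool.Agent.Q231.E8

open Finset Pool.Agent.Q267.CDE Pool.Agent.Q267.MW Pool.Agent.Q267.E8

theorem ch : S_CH := by
  intro p N hp K _ _ _ z e hp2 hN h4 he hpe hz i s hs hs2
  have : CharP K p := charP_of_injective_algebraMap (algebraMap (ZMod p) K).injective p
  set x : K := z ^ i with hx
  set S : K := algebraMap (ZMod p) K s with hS
  have hz0 : z ≠ 0 := hz.ne_zero hN.ne'
  have hx0 : x ≠ 0 := pow_ne_zero _ hz0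
  have hs' : S = x + x⁻¹ := by rw [← hs, hx, inv_pow]
  have hx1 : x + 1 ≠ 0 := by
    intro h
    have h1 : x = -1 := eq_neg_of_add_eq_zero_left h
    apply hs2
    apply (algebraMap (ZMod p) K).injective
    rw [← hS, hs', h1]
    simp only [map_neg, map_ofNat]
    norm_num
  have hmul : (S + 2) * x = (x + 1) ^ 2 := by
    rw [hs']
    field_simp
    ring
  obtain ⟨k, hk⟩ : ∃ k, N = 2 * k := (Dvd.dvd.trans (by norm_num : 2 ∣ 4) h4)
  have hkpos : 0 < k := by omega
  have hzk : z ^ k = -1 := by
    have h1 : (z ^ k) ^ 2 = 1 := by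
      rw [← pow_mul, mul_comm k 2, ← hk, hz.pow_eq_one]
    have h2 : (z ^ k - 1) * (z ^ k + 1) = 0 := by linear_combination h1
    rcases mul_eq_zero.1 h2 with h | h
    · exfalso
      have := Nat.le_of_dvd hkpos (hz.dvd_of_pow_eq_one k (sub_eq_zero.1 h))
      omega
    · exact eq_neg_of_add_eq_zero_left h
  have hxk : x ^ k = (-1) ^ i := by
    rw [hx, ← pow_mul, mul_comm i k, pow_mul, hzk]
  have hxN : x ^ N = 1 := by
    rw [hk, mul_comm, pow_mul, hxk, ← pow_mul, mul_comm i 2, pow_mul]
    norm_num
  have hfrob : (x + 1) ^ p = x ^ p + 1 := by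
    rw [add_pow_char, one_pow]
  have hpodd : p % 2 = 1 := by
    rcases hp.out.eq_two_or_odd with h | h
    · exact absurd h hp2
    · exact h
  set m := p / 2 with hm
  have hpm : p = 2 * m + 1 := by omega
  have hkey : (S + 2) ^ m * x ^ m * (x + 1) = x ^ p + 1 := by
    rw [← hfrob, ← mul_pow, hmul, ← pow_mul, ← pow_succ, ← hpm]
  have hpow : (S + 2) ^ m = (-1) ^ i := by
    have hmain : (S + 2) ^ m * x ^ k = 1 := by
      rcases he with he | he
      · have hpN : p = N + 1 := by
          rw [he] at hpe; exact_mod_cast hpe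
        have hmk : m = k := by omega
        rw [hpN, pow_succ, hxN, one_mul, hmk] at hkey
        rw [hmk]
        exact mul_right_cancel₀ hx1 (by rw [hkey, one_mul])
      · have hpN : p + 1 = N := by
          rw [he] at hpe
          have : (p : ℤ) + 1 = N := by linarith
          exact_mod_cast this
        have hmk : m + 1 = k := by omega
        apply mul_right_cancel₀ hx1
        rw [← hmk, pow_succ, one_mul]
        calc (S + 2) ^ m * (x ^ m * x) * (x + 1) = ((S + 2) ^ m * x ^ m * (x + 1)) * x := by ring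
          _ = (x ^ p + 1) * x := by rw [hkey]
          _ = x ^ (p + 1) + x := by ring
          _ = x + 1 := by rw [hpN, hxN]; ring
    rw [hxk] at hmain
    have h2 : ((-1 : K) ^ i) * (-1) ^ i = 1 := by
      rw [← mul_pow]; norm_num
    calc (S + 2) ^ m = (S + 2) ^ m * ((-1) ^ i * (-1) ^ i) := by rw [h2, mul_one]
      _ = ((S + 2) ^ m * (-1) ^ i) * (-1) ^ i := by ring
      _ = (-1) ^ i := by rw [hmain, one_mul]
  have hpowp : (s + 2) ^ m = (-1) ^ i := by
    apply (algebraMap (ZMod p) K).injective
    rw [map_pow, map_add, map_pow, map_neg, map_one, map_ofNat, ← hS, hpow]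
  have hchar : ringChar (ZMod p) ≠ 2 := by rw [ZMod.ringChar_zmod_n]; exact hp2
  have hne : s + 2 ≠ 0 := fun h => hs2 (eq_neg_of_add_eq_zero_left h)
  have h5 := quadraticChar_eq_pow_of_char_ne_two' hchar (s + 2)
  rw [ZMod.card, ← hm, hpowp] at h5
  have h1m : (1 : ZMod p) ≠ -1 := by
    intro h
    have h6 : (2 : ZMod p) = 0 := by linear_combination h
    have h7 : ((2 : ℕ) : ZMod p) = 0 := by exact_mod_cast h6
    have h8 := (ZMod.natCast_eq_zero_iff 2 p).1 h7
    have := Nat.le_of_dvd (by norm_num) h8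
    have := hp.out.two_le
    omega
  rcases Nat.even_or_odd i with hi | hi
  · rw [hi.neg_one_pow] at h5 ⊢
    rcases quadraticChar_dichotomy hne with h | h
    · exact h
    · exfalso
      rw [h] at h5
      push_cast at h5
      exact h1m h5.symm
  · rw [hi.neg_one_pow] at h5 ⊢
    rcases quadraticChar_dichotomy hne with h | h
    · exfalso
      rw [h] at h5
      push_cast at h5
      exact h1m h5
    · exact h

end Pool.Agent.Q231.E8
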